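import Pool.Agent.H71.ASF.StmtsM

namespace ASF

universe u

set_option linter.unusedSectionVars false

namespace CWO

theorem o1_of {A : Type*} [NonUnitalNonAssocRing A] [Alt A] {r s : A} (h1 : r * s = 0)
    (h2 : s * r = 0) (h3 : ∀ a, (r * a) * s = 0) (h4 : ∀ a, s * (a * r) = 0)
    (h5 : ∀ a, asc r a s = 0) : O1 r s := by
  have k1 : ∀ a, asc a r s = 0 := fun a => by rw [asc_s12 r a s, h5, neg_zero]
  have k2 : ∀ a, asc s r a = 0 := fun a => by rw [asc_cyc' r a s, h5]
  have k3 : ∀ a, asc s a r = 0 := fun a => by rw [asc_s13 r a s, h5, neg_zero]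
  have k4 : ∀ a, asc r s a = 0 := fun a => by rw [asc_s23 r a s, h5, neg_zero]
  have k5 : ∀ a, asc a s r = 0 := fun a => by rw [asc_cyc r a s, h5]
  refine ⟨h1, h2, h3, ?_, ?_, h4, ?_, ?_, ?_, ?_⟩
  · intro a
    have := k1 a
    rw [asc, h1, mul_zero, sub_zero] at this
    exact this
  · intro a
    have := k2 a
    rw [asc, h2, zero_mul, zero_sub, neg_eq_zero] at this
    exact this
  · intro a
    have := k4 a
    rw [asc, h1, zero_mul, zero_sub, neg_eq_zero] at this
    exact this
  · intro a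
    have := h5 a
    rw [asc, h3, zero_sub, neg_eq_zero] at this
    exact this
  · intro a
    have := k3 a
    rw [asc, h4, sub_zero] at this
    exact this
  · intro a
    have := k5 a
    rw [asc, h2, mul_zero, sub_zero] at this
    exact this

variable {R : Type} [CommRing R] {A : Type u} [NonUnitalNonAssocRing A]
  [Module R A] [IsScalarTower R A A] [SMulCommClass R A A]

/-- the submodule of elements with `KP` -/
def KPs (B : Submodule R A) : Submodule R A where
  carrier := {z | ∀ b ∈ B, ∀ d ∈ B, (b * z) * d = 0}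
  add_mem' := by
    intro x y hx hy b hb d hd
    rw [mul_add, add_mul, hx b hb d hd, hy b hb d hd, add_zero]
  zero_mem' := by
    intro b hb d hd
    rw [mul_zero, zero_mul]
  smul_mem' := by
    intro c x hx b hb d hd
    rw [mul_smul_comm, smul_mul_assoc, hx b hb d hd, smul_zero]

/-- the middle parts of chains -/
def Z (B : Submodule R A) : ℕ → Submodule R A
  | 0 => ⊤
  | j + 1 => Submodule.span R {w | ∃ z ∈ Z B j, ∃ d ∈ B, ∃ a : A, w = z * (d * a)} ⊔ KPs B

theorem kp_Z (B : Submodule R A) (j : ℕ) : KPs B ≤ Z B j := by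
  cases j with
  | zero => exact le_top
  | succ j => exact le_sup_right

variable [Alt A]

/-- `WW B (j+1)` is contained in the span of `(b z) d`, `z ∈ Z B j` -/
theorem ww_le (hCKP : CKPStmt.{u}) (B : Submodule R A) (hB : VZ B.toAddSubgroup) (j : ℕ) :
    WW B (j + 1) ≤ Submodule.span R {w | ∃ b ∈ B, ∃ z ∈ Z B j, ∃ d ∈ B, w = (b * z) * d} := by
  induction j with
  | zero =>
    refine Submodule.span_le.mpr ?_
    rintro _ ⟨w, hw, a, d, hd, rfl⟩
    exact Submodule.subset_span ⟨w, hw, a, trivial, d, hd, rfl⟩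
  | succ j ih =>
    refine Submodule.span_le.mpr ?_
    rintro _ ⟨w, hw, a, d, hd, rfl⟩
    have hw' := ih hw
    clear hw ih
    induction hw' using Submodule.span_induction with
    | mem w h =>
      obtain ⟨b, hb, z, hz, d', hd', rfl⟩ := h
      have := (hCKP A B.toAddSubgroup hB b hb d' hd' z a).2.2.2.2.2.1 d hd
      rw [this]
      refine Submodule.subset_span ⟨b, hb, z * (d' * a), ?_, d, hd, rfl⟩
      exact Submodule.mem_sup_left (Submodule.subset_span ⟨z, hz, d', hd', a, rfl⟩)
    | zero => rw [zero_mul, zero_mul]; exact zero_mem _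
    | add w w' _ _ h h' => rw [add_mul, add_mul]; exact add_mem h h'
    | smul c w _ h => rw [smul_mul_assoc, smul_mul_assoc]; exact Submodule.smul_mem _ _ h

/-- `(b z) d ∈ WW B (j+1)` for `z ∈ Z B j` -/
theorem mem_ww (hCKP : CKPStmt.{u}) (B : Submodule R A) (hB : VZ B.toAddSubgroup) (j : ℕ) :
    ∀ b ∈ B, ∀ z ∈ Z B j, ∀ d ∈ B, (b * z) * d ∈ WW B (j + 1) := by
  induction j with
  | zero =>
    intro b hb z _ d hd
    exact Submodule.subset_span ⟨b, hb, z, d, hd, rfl⟩
  | succ j ih =>
    intro b hb z hz d hd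
    obtain ⟨z1, hz1, z2, hz2, rfl⟩ := Submodule.mem_sup.mp hz
    have e2 : (b * z2) * d = 0 := hz2 b hb d hd
    rw [mul_add, add_mul, e2, add_zero]
    clear hz hz2 e2
    induction hz1 using Submodule.span_induction with
    | mem w h =>
      obtain ⟨z, hz, d', hd', a, rfl⟩ := h
      have := (hCKP A B.toAddSubgroup hB b hb d' hd' z a).2.2.2.2.2.1 d hd
      rw [← this]
      exact Submodule.subset_span ⟨(b * z) * d', ih b hb z hz d' hd', a, d, hd, rfl⟩
    | zero => rw [mul_zero, zero_mul]; exact zero_mem _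
    | add w w' _ _ h h' => rw [mul_add, add_mul]; exact add_mem h h'
    | smul c w _ h => rw [mul_smul_comm, smul_mul_assoc]; exact Submodule.smul_mem _ _ h

/-- `a (b z) ∈ KP` for `z ∈ KP` -/
theorem kp_mul (hCRU : CRUStmt.{u}) (B : Submodule R A) (hB : VZ B.toAddSubgroup) {z : A}
    (hz : z ∈ KPs B) (a : A) {b : A} (hb : b ∈ B) : a * (b * z) ∈ KPs B := by
  intro b' hb' d hd
  have h0 : (b * z) * d = 0 := hz b hb d hd
  have cru := hCRU A B.toAddSubgroup hB
  -- ((b' a) (b z)) d = 0
  have e1 : ((b' * a) * (b * z)) * d = 0 := by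
    have k1 : ((b' * a) * (b * z)) * d = asc (b' * a) (b * z) d := by
      rw [asc, h0, mul_zero, sub_zero]
    have k2 : asc a (b * z) d = (a * (b * z)) * d := by
      rw [asc, h0, mul_zero, sub_zero]
    rw [k1, (cru b' hb' d hd a (b * z)).2.2.2.2.1, k2]
    exact (cru d hd b' hb' (a * (b * z)) 0).1
  have e2 : asc b' a (b * z) * d = 0 := by
    have k1 : asc b' a (b * z) = - asc (b * z) a b' := asc_s13 _ _ _
    rw [k1, (cru b hb b' hb' z a).2.2.2.2.1, neg_mul, (cru b hb d hd _ 0).1, neg_zero]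
  have e3 : b' * (a * (b * z)) = (b' * a) * (b * z) - asc b' a (b * z) := by
    simp only [asc]; abel
  rw [e3, sub_mul, e1, e2, sub_zero]

/-- `a (b z) ∈ Z B (j+1)` for `z ∈ Z B j` -/
theorem mul_Z (hCRU : CRUStmt.{u}) (hCKP : CKPStmt.{u}) (B : Submodule R A)
    (hB : VZ B.toAddSubgroup) (j : ℕ) :
    ∀ b ∈ B, ∀ z ∈ Z B j, ∀ a : A, a * (b * z) ∈ Z B (j + 1) := by
  induction j with
  | zero =>
    intro b hb z _ a
    exact Submodule.mem_sup_left (Submodule.subset_span ⟨a, trivial, b, hb, z, rfl⟩)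
  | succ j ih =>
    intro b hb z hz a
    obtain ⟨z1, hz1, z2, hz2, rfl⟩ := Submodule.mem_sup.mp hz
    have e2 : a * (b * z2) ∈ Z B (j + 1 + 1) := kp_Z B _ (kp_mul hCRU B hB hz2 a hb)
    rw [mul_add, mul_add]
    refine add_mem ?_ e2
    clear hz hz2 e2
    induction hz1 using Submodule.span_induction with
    | mem w h =>
      obtain ⟨z, hz, d, hd, a', rfl⟩ := h
      have h1 := (hCKP A B.toAddSubgroup hB b hb b hb a a').2.2.2.2.2.2.2.2 z d hd
      have h2 : (a * (b * z)) * (d * a') ∈ Z B (j + 1 + 1) :=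
        Submodule.mem_sup_left (Submodule.subset_span ⟨_, ih b hb z hz a, d, hd, a', rfl⟩)
      have h3 : (a * (b * z)) * (d * a') - a * (b * (z * (d * a'))) ∈ Z B (j + 1 + 1) :=
        kp_Z B _ h1
      have := sub_mem h2 h3
      rwa [sub_sub_cancel] at this
    | zero => rw [mul_zero, mul_zero]; exact zero_mem _
    | add w w' _ _ h h' => rw [mul_add, mul_add]; exact add_mem h h'
    | smul c w _ h => rw [mul_smul_comm, mul_smul_comm]; exact Submodule.smul_mem _ _ h

end CWO

open CWO in
theorem cwo (hCRU : CRUStmt.{u}) (hCKP : CKPStmt.{u}) : CWOStmt.{u} := by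
  intro R _ A _ _ _ _ _ B hnull hV k hk r hr s hs
  have hB : VZ B.toAddSubgroup := ⟨hnull, hV⟩
  have cru := hCRU A B.toAddSubgroup hB
  have ckp := hCKP A B.toAddSubgroup hB
  have hw : ∀ w ∈ WW B k, ∀ a : A, ∀ d ∈ B, (w * a) * d = 0 := by
    intro w hw a d hd
    have : (w * a) * d ∈ WW B (k + 1) := Submodule.subset_span ⟨w, hw, a, d, hd, rfl⟩
    rw [hk] at this
    exact this
  cases k with
  | zero =>
    have hr' : r ∈ B := hr
    refine o1_of (hnull r hr' s hs) (hnull s hs r hr') (fun a => hw r hr a s hs) ?_ ?_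
    · intro a
      have h1 : asc s a r = 0 := by rw [asc_cyc' a r s, hV r hr' s hs]
      have h2 := hw s hs a r hr'
      rw [asc, h2, zero_sub, neg_eq_zero] at h1
      exact h1
    · intro a
      rw [asc_s12 a r s, hV r hr' s hs, neg_zero]
  | succ k =>
    have hP : r * s = 0 ∧ s * r = 0 ∧ (∀ a, s * (a * r) = 0) ∧ ∀ a, asc r a s = 0 := by
      have hr' := ww_le hCKP B hB k hr
      clear hr
      induction hr' using Submodule.span_induction with
      | mem r h =>
        obtain ⟨b, hb, u, hu, d, hd, rfl⟩ := h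
        refine ⟨(cru d hd s hs _ 0).1, ?_, ?_, ?_⟩
        · have h1 : asc s (b * u) d = 0 := by
            rw [asc_s12 (b * u) s d, hV s hs d hd, neg_zero]
          rw [asc, (cru b hb s hs u 0).2.1, zero_mul, zero_sub, neg_eq_zero] at h1
          exact h1
        · intro a
          rw [(ckp b hb d hd u a).2.2.2.2.2.2.1 s hs]
          have h1 : (a * b) * u = a * (b * u) + asc a b u := by simp only [asc]; abel
          have h2 : (s * asc a b u) * d = 0 := by
            have h3 := (ckp b hb d hd u a).2.2.1 s hs d hd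
            rwa [← asc_cyc u a b] at h3
          rw [h1, mul_add, add_mul, h2, add_zero]
          have h4 := mem_ww hCKP B hB (k + 1) s hs _ (mul_Z hCRU hCKP B hB k b hb u hu a) d hd
          rw [hk] at h4
          exact h4
        · intro a
          rw [(cru d hd s hs (b * u) a).2.2.2.1, (cru b hb s hs u a).2.2.2.2.1]
          have h1 : asc u a s = asc s u a := (asc_cyc' u a s).symm
          have h2 : asc s u a * b = - (s * asc b u a) := by
            rw [(cru b hb s hs u a).2.2.2.2.2, neg_neg]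
          rw [h1, h2, mul_neg, (cru s hs d hd _ 0).2.1, neg_zero]
      | zero =>
        refine ⟨zero_mul _, mul_zero _, fun a => ?_, fun a => asc_zero1 _ _⟩
        rw [mul_zero, mul_zero]
      | add x y _ _ hx hy =>
        obtain ⟨x1, x2, x3, x4⟩ := hx
        obtain ⟨y1, y2, y3, y4⟩ := hy
        refine ⟨?_, ?_, fun a => ?_, fun a => ?_⟩
        · rw [add_mul, x1, y1, add_zero]
        · rw [mul_add, x2, y2, add_zero]
        · rw [mul_add, mul_add, x3, y3, add_zero]
        · rw [asc_add1, x4, y4, add_zero]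
      | smul c x _ hx =>
        obtain ⟨x1, x2, x3, x4⟩ := hx
        refine ⟨?_, ?_, fun a => ?_, fun a => ?_⟩
        · rw [smul_mul_assoc, x1, smul_zero]
        · rw [mul_smul_comm, x2, smul_zero]
        · rw [mul_smul_comm, mul_smul_comm, x3, smul_zero]
        · have := x4 a
          simp only [asc, smul_mul_assoc] at this ⊢
          rw [← smul_sub, this, smul_zero]
    obtain ⟨h1, h2, h4, h5⟩ := hP
    exact o1_of h1 h2 (fun a => hw r hr a s hs) h4 h5

end ASF
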