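import Pool.Agent.H71.ASF.StmtsM

namespace ASF

universe u

theorem dri : DRIStmt.{u} := by
  intro R _ A _ _ _ _ _ C hC n
  induction n with
  | zero =>
    refine ⟨le_refl _, fun x hx a ha => ⟨hC a ha x hx, hC x hx a ha⟩⟩
  | succ n ih =>
    obtain ⟨hle, hid⟩ := ih
    refine ⟨?_, ?_⟩
    · refine Submodule.span_le.mpr ?_
      rintro z ⟨x, hx, y, hy, rfl⟩
      exact hC x (hle hx) y (hle hy)
    · intro z hz a ha
      change z ∈ Submodule.span R {z | ∃ x ∈ der C n, ∃ y ∈ der C n, z = x * y} at hz
      have hm : ∀ x ∈ der C n, ∀ y ∈ der C n, x * y ∈ der C (n + 1) := fun x hx y hy =>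
        Submodule.subset_span ⟨x, hx, y, hy, rfl⟩
      induction hz using Submodule.span_induction with
      | mem z h =>
        obtain ⟨x, hx, y, hy, rfl⟩ := h
        have h1 := hm (x * a) (hid x hx a ha).2 y hy
        have h2 := hm x hx (a * y) (hid y hy a ha).1
        have h3 := hm x hx (y * a) (hid y hy a ha).2
        have h4 := hm (a * x) (hid x hx a ha).1 y hy
        constructor
        · have e : a * (x * y) = (a * x) * y + ((x * a) * y - x * (a * y)) := by
            have := asc_s12 x a y
            simp only [asc] at this
            linear_combination (norm := abel) -this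
          rw [e]
          exact add_mem h4 (sub_mem h1 h2)
        · have e : (x * y) * a = x * (y * a) - ((x * a) * y - x * (a * y)) := by
            have := asc_s23 x a y
            simp only [asc] at this
            linear_combination (norm := abel) this
          rw [e]
          exact sub_mem h3 (sub_mem h1 h2)
      | zero => simp
      | add z w hz hw ih1 ih2 =>
        rw [mul_add, add_mul]
        exact ⟨add_mem ih1.1 ih2.1, add_mem ih1.2 ih2.2⟩
      | smul r z hz ih1 =>
        rw [mul_smul_comm, smul_mul_assoc]
        exact ⟨Submodule.smul_mem _ _ ih1.1, Submodule.smul_mem _ _ ih1.2⟩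

end ASF
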