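import Pool.Agent.H71.ASF.StmtsM

namespace ASF

universe u

theorem IGP.map_mulS {R : Type} [CommRing R] {A : Type*} [NonUnitalNonAssocRing A] [Module R A]
    {A' : Type*} [NonUnitalNonAssocRing A'] [Module R A'] (π : A →ₗ[R] A')
    (hπ : ∀ x y, π (x * y) = π x * π y) (I J : Submodule R A) :
    (mulS I J).map π = mulS (I.map π) (J.map π) := by
  unfold mulS
  rw [Submodule.map_span]
  congr 1
  ext z
  constructor
  · rintro ⟨w, ⟨x, hx, y, hy, rfl⟩, rfl⟩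
    exact ⟨π x, ⟨x, hx, rfl⟩, π y, ⟨y, hy, rfl⟩, hπ x y⟩
  · rintro ⟨_, ⟨x, hx, rfl⟩, _, ⟨y, hy, rfl⟩, rfl⟩
    exact ⟨x * y, ⟨x, hx, y, hy, rfl⟩, hπ x y⟩

theorem IGP.map_der {R : Type} [CommRing R] {A : Type*} [NonUnitalNonAssocRing A] [Module R A]
    {A' : Type*} [NonUnitalNonAssocRing A'] [Module R A'] (π : A →ₗ[R] A')
    (hπ : ∀ x y, π (x * y) = π x * π y) (I : Submodule R A) (n : ℕ) :
    (der I n).map π = der (I.map π) n := by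
  induction n with
  | zero => rfl
  | succ n ih =>
    change (mulS (der I n) (der I n)).map π = mulS _ _
    rw [IGP.map_mulS π hπ, ih]

theorem igp : IGPStmt.{u} := by
  intro R _ A _ _ _ _ A' _ _ _ _ π q 𝒜 B hπ hs h
  refine ⟨⟨?_, ?_⟩, ?_, ?_, ?_, ?_⟩
  · rintro i j _ ⟨x, hx, rfl⟩ _ ⟨y, hy, rfl⟩
    exact ⟨x * y, h.grd.mul i j x hx y hy, hπ x y⟩
  · rw [← Submodule.map_iSup, h.grd.sup, Submodule.map_top, LinearMap.range_eq_top.mpr hs]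
  · obtain ⟨n, hn⟩ := h.sol
    refine ⟨n, ?_⟩
    rw [← IGP.map_der π hπ, hn, Submodule.map_bot]
  · exact Submodule.map_mono h.le
  · rintro _ ⟨a, ha, rfl⟩ _ ⟨b, hb, rfl⟩
    exact ⟨⟨a * b, (h.idl a ha b hb).1, hπ a b⟩, ⟨b * a, (h.idl a ha b hb).2, hπ b a⟩⟩
  · rintro _ ⟨b, hb, rfl⟩ _ ⟨c, hc, rfl⟩
    rw [← hπ, h.null b hb c hc, map_zero]

end ASF
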