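import Pool.Agent.H71.ASF.StmtsM

namespace ASF

universe u

set_option linter.unusedSectionVars false

namespace SAL

section
variable {A : Type*} [NonUnitalNonAssocRing A]

theorem nu_add1 (b1 b2 b3 x x' y : A) :
    nu b1 b2 b3 (x + x') y = nu b1 b2 b3 x y + nu b1 b2 b3 x' y := by
  simp only [nu, dl, asc_add1, cm_add1]; abel

theorem nu_add2 (b1 b2 b3 x y y' : A) :
    nu b1 b2 b3 x (y + y') = nu b1 b2 b3 x y + nu b1 b2 b3 x y' := by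
  simp only [nu, cm_add2]; abel

theorem nu_zero1 (b1 b2 b3 y : A) : nu b1 b2 b3 0 y = 0 := by
  simp only [nu, dl, asc_zero1, cm_zero1, add_zero]

theorem nu_zero2 (b1 b2 b3 x : A) : nu b1 b2 b3 x 0 = 0 := by
  simp only [nu, cm_zero2, add_zero]

end

section
variable {R : Type} [CommRing R] {A : Type*} [NonUnitalNonAssocRing A] [Module R A]
  [IsScalarTower R A A] [SMulCommClass R A A] {q : ℕ} {𝒜 : ZMod q → Submodule R A}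

theorem asc_mem (h : Grd q 𝒜) {i j k : ZMod q} {x y z : A} (hx : x ∈ 𝒜 i) (hy : y ∈ 𝒜 j)
    (hz : z ∈ 𝒜 k) : asc x y z ∈ 𝒜 (i + j + k) := by
  refine sub_mem (h.mul _ _ _ (h.mul _ _ _ hx _ hy) _ hz) ?_
  rw [add_assoc]
  exact h.mul _ _ _ hx _ (h.mul _ _ _ hy _ hz)

theorem cm_mem (h : Grd q 𝒜) {i j : ZMod q} {x y : A} (hx : x ∈ 𝒜 i) (hy : y ∈ 𝒜 j) :
    cm x y ∈ 𝒜 (i + j) := by
  refine sub_mem (h.mul _ _ _ hx _ hy) ?_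
  rw [add_comm]
  exact h.mul _ _ _ hy _ hx

theorem nu_mem (h : Grd q 𝒜) {i j : ZMod q} {x y b1 b2 b3 : A} (hx : x ∈ 𝒜 i) (hy : y ∈ 𝒜 j)
    (h1 : b1 ∈ 𝒜 0) (h2 : b2 ∈ 𝒜 0) (h3 : b3 ∈ 𝒜 0) : nu b1 b2 b3 x y ∈ 𝒜 (i + j) := by
  have key : ∀ c1 ∈ 𝒜 0, ∀ c2 ∈ 𝒜 0, ∀ c3 ∈ 𝒜 0, cm (dl c1 c2 x) (cm c3 y) ∈ 𝒜 (i + j) := by
    intro c1 h1 c2 h2 c3 h3
    have e1 : dl c1 c2 x ∈ 𝒜 i := by
      have := asc_mem h hx h1 h2
      simpa [dl] using this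
    have e2 : cm c3 y ∈ 𝒜 j := by
      have := cm_mem h h3 hy
      simpa using this
    exact cm_mem h e1 e2
  exact add_mem (add_mem (key _ h1 _ h2 _ h3) (key _ h2 _ h3 _ h1)) (key _ h3 _ h1 _ h2)

end

end SAL

open SAL in
theorem sal (hKNU : KNUStmt.{u}) (hSN0 : SN0Stmt.{u}) (hTNI : TNIStmt.{u}) (hIDW : IDWStmt.{u})
    (hISO : ISOStmt.{u}) (hDES : DESStmt.{u}) (hINT : INTStmt.{u}) : SALStmt.{u} := by
  intro R _ hu q _ A _ _ _ _ _ 𝒜 B hG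
  have : NT A := hINT R A hu
  obtain ⟨iso1, iso2, iso3, iso4⟩ := hISO R A
  obtain ⟨idw1, idw2, -, -⟩ := hIDW R A {n : A | Nuc n ∧ ∃ i, n ∈ 𝒜 i}
  have hnu : ∀ b1 ∈ B, ∀ b2 ∈ B, ∀ b3 ∈ B, ∀ x y : A,
      nu b1 b2 b3 x y ∈ Idl R {n : A | Nuc n ∧ ∃ i, n ∈ 𝒜 i} := by
    intro b1 h1 b2 h2 b3 h3 x y
    have hx : x ∈ ⨆ i, 𝒜 i := by rw [hG.grd.sup]; trivial
    refine Submodule.iSup_induction 𝒜
      (motive := fun x => nu b1 b2 b3 x y ∈ Idl R {n : A | Nuc n ∧ ∃ i, n ∈ 𝒜 i}) hx ?_ ?_ ?_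
    · intro i x hx
      have hy : y ∈ ⨆ i, 𝒜 i := by rw [hG.grd.sup]; trivial
      refine Submodule.iSup_induction 𝒜
        (motive := fun y => nu b1 b2 b3 x y ∈ Idl R {n : A | Nuc n ∧ ∃ i, n ∈ 𝒜 i}) hy ?_ ?_ ?_
      · intro j y hy
        refine idw2 ⟨?_, i + j, nu_mem hG.grd hx hy (hG.le h1) (hG.le h2) (hG.le h3)⟩
        refine hKNU A b1 b2 b3 ?_ x y
        exact ⟨hG.null _ h1 _ h1, hG.null _ h2 _ h2, hG.null _ h3 _ h3, hG.null _ h1 _ h2,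
          hG.null _ h2 _ h1, hG.null _ h1 _ h3, hG.null _ h3 _ h1, hG.null _ h2 _ h3,
          hG.null _ h3 _ h2⟩
      · rw [nu_zero2]; exact zero_mem _
      · intro y y' h h'
        rw [nu_add2]; exact add_mem h h'
    · rw [nu_zero1]; exact zero_mem _
    · intro x x' h h'
      rw [nu_add1]; exact add_mem h h'
  obtain ⟨m, hm⟩ := hDES R A q 𝒜 B (Idl R {n : A | Nuc n ∧ ∃ i, n ∈ 𝒜 i}) hG idw1 (by
    intro A' _ _ _ _ _ π hπ hsur hker hG'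
    refine hSN0 R hu q A' (fun i => (𝒜 i).map π) (B.map π) hG' ?_
    rintro _ ⟨b1, h1, rfl⟩ _ ⟨b2, h2, rfl⟩ _ ⟨b3, h3, rfl⟩ x' y'
    obtain ⟨x, rfl⟩ := hsur x'
    obtain ⟨y, rfl⟩ := hsur y'
    have e : nu (π b1) (π b2) (π b3) (π x) (π y) = π (nu b1 b2 b3 x y) := by
      simp only [nu, dl, cm, asc, map_sub, map_add, hπ]
    rw [e, hker]
    exact hnu b1 h1 b2 h2 b3 h3 x y)
  exact iso3 _ _ m hm (hTNI R A q 𝒜 hG.grd hG.sol)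

end ASF
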