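import Pool.Agent.H71.ASF.StmtsM

namespace ASF

universe u

theorem sgr (hSAL : SALStmt.{u}) (hBAS : BASStmt.{u}) (hDRI : DRIStmt.{u}) (hQUO : QUOStmt.{u})
    (hIDW : IDWStmt.{u}) (hISV : ISVStmt.{u}) (hISO : ISOStmt.{u}) : SGRStmt.{u} := by
  intro R _ hu q _ A _ _ _ _ _ 𝒜 hG hsol
  obtain ⟨n, hn⟩ := hsol
  induction n generalizing A with
  | zero => exact hBAS R A q 𝒜 hG hn
  | succ n ih =>
    have hC : ∀ x ∈ 𝒜 0, ∀ y ∈ 𝒜 0, x * y ∈ 𝒜 0 := by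
      intro x hx y hy
      have := hG.mul 0 0 x hx y hy
      rwa [add_zero] at this
    obtain ⟨hle, hid⟩ := hDRI R A (𝒜 0) hC n
    have hnull : ∀ b ∈ der (𝒜 0) n, ∀ c ∈ der (𝒜 0) n, b * c = 0 := by
      intro b hb c hc
      have : b * c ∈ der (𝒜 0) (n + 1) := Submodule.subset_span ⟨b, hb, c, hc, rfl⟩
      rw [hn] at this
      exact this
    have hGP : GP q 𝒜 (der (𝒜 0) n) :=
      ⟨hG, ⟨n + 1, hn⟩, hle, fun a ha b hb => hid b hb a ha, hnull⟩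
    have hK := hSAL R hu q A 𝒜 (der (𝒜 0) n) hGP
    obtain ⟨idw1, idw2, -, -⟩ := hIDW R A (der (𝒜 0) n : Set A)
    obtain ⟨A', i1, i2, i3, i4, i5, π, hπ, hsur, hker⟩ := hQUO R A _ idw1
    obtain ⟨-, isv2, isv3⟩ := hISV R A A' π hπ hsur
    obtain ⟨iso1, iso2, iso3, iso4⟩ := hISO R A
    have hG' : Grd q (fun i => (𝒜 i).map π) := by
      refine ⟨?_, ?_⟩
      · rintro i j _ ⟨x, hx, rfl⟩ _ ⟨y, hy, rfl⟩
        exact ⟨x * y, hG.mul i j x hx y hy, hπ x y⟩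
      · rw [← Submodule.map_iSup, hG.sup, Submodule.map_top, LinearMap.range_eq_top.mpr hsur]
    have hn' : der ((𝒜 0).map π) n = ⊥ := by
      rw [← isv2, eq_bot_iff]
      rintro _ ⟨x, hx, rfl⟩
      exact (hker x).mpr (idw2 hx)
    obtain ⟨m, hm⟩ := ih A' (fun i => (𝒜 i).map π) hG' hn'
    refine iso3 ⊤ (Idl R (der (𝒜 0) n : Set A)) m ?_ hK
    intro x hx
    rw [← hker]
    refine isv3 ⊤ m ?_ x hx
    rw [Submodule.map_top, LinearMap.range_eq_top.mpr hsur]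
    exact hm

end ASF
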