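import Pool.Agent.H71.ASF.StmtsM

namespace ASF

universe u

theorem si1 (hNH4 : NH4Stmt.{u}) (_hIDW : IDWStmt.{u}) (hIDP : IDPStmt.{u}) (hINT : INTStmt.{u}) :
    SI1Stmt.{u} := by
  intro R _ hu q _ A _ _ _ _ _ 𝒜 B hG hV i j hD x hx y hy
  have : NT A := hINT R A hu
  refine hIDP R A (VS B (𝒜 i)) (VS B (𝒜 j)) ?_ x hx y hy
  rintro _ ⟨b1, hb1, b2, hb2, x, hx, rfl⟩ _ ⟨b3, hb3, b4, hb4, y, hy, rfl⟩ l m
  refine (hNH4 A B.toAddSubgroup (𝒜 i).toAddSubgroup (𝒜 j).toAddSubgroup ?_ hV ?_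
    b1 hb1 b2 hb2 b3 hb3 b4 hb4 x hx y hy l m).1
  · exact hG.null
  · intro b1 hb1 b2 hb2 b hb x hx y hy
    refine hD b1 hb1 b2 hb2 _ ?_
    have h1 := hG.grd.mul i 0 x hx b (hG.le hb)
    rw [add_zero] at h1
    exact hG.grd.mul i j _ h1 y hy

end ASF
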