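import Pool.Agent.H71.ASF.StmtsM

namespace ASF

universe u

namespace SV3

theorem der_le {R : Type} [CommRing R] {A : Type*} [NonUnitalNonAssocRing A] [Module R A]
    {I : Submodule R A} (hI : IsIdl I) (m : ℕ) : der I m ≤ I := by
  induction m with
  | zero => exact le_refl _
  | succ m ih =>
    refine Submodule.span_le.mpr ?_
    rintro z ⟨x, hx, y, hy, rfl⟩
    exact (hI x (ih hx) y).2

/-- bad indices -/
def Bad {R : Type} [CommRing R] {A : Type*} [NonUnitalNonAssocRing A] [Module R A] {q : ℕ}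
    (𝒜 : ZMod q → Submodule R A) (B : Submodule R A) : Set (ZMod q) :=
  {s | ∃ b ∈ B, ∃ c ∈ B, ∃ x ∈ 𝒜 s, dl b c x ≠ 0}

theorem not_bad {R : Type} [CommRing R] {A : Type*} [NonUnitalNonAssocRing A] [Module R A] {q : ℕ}
    {𝒜 : ZMod q → Submodule R A} {B : Submodule R A} {s : ZMod q} (h : s ∉ Bad 𝒜 B) :
    ∀ b ∈ B, ∀ c ∈ B, ∀ x ∈ 𝒜 s, dl b c x = 0 := by
  intro b hb c hc x hx
  by_contra hne
  exact h ⟨b, hb, c, hc, x, hx, hne⟩

end SV3

open SV3 in
theorem sv3 (hSI1 : SI1Stmt.{u}) (hSV0 : SV0Stmt.{u}) (hIDW : IDWStmt.{u}) (hISO : ISOStmt.{u})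
    (_hISV : ISVStmt.{u}) (hDES : DESStmt.{u}) : SV3Stmt.{u} := by
  intro R _ hu q _ A _ _ _ _ _ 𝒜 B hG hV
  generalize hn : (Bad 𝒜 B).ncard = n
  induction n using Nat.strong_induction_on generalizing A with
  | _ n ih =>
  by_cases hbad : Bad 𝒜 B = ∅
  · refine hSV0 R hu q A 𝒜 B hG ?_
    intro b hb c hc x
    have hx : x ∈ ⨆ i, 𝒜 i := by rw [hG.grd.sup]; trivial
    refine Submodule.iSup_induction 𝒜 (motive := fun x => asc x b c = 0) hx ?_ ?_ ?_
    · intro i x hx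
      refine not_bad (𝒜 := 𝒜) (B := B) (s := i) ?_ b hb c hc x hx
      rw [hbad]; exact Set.notMem_empty _
    · exact asc_zero1 _ _
    · intro x y hx hy
      rw [asc_add1, hx, hy, add_zero]
  · obtain ⟨i, hi⟩ := Set.nonempty_iff_ne_empty.mpr hbad
    have h0 : (0 : ZMod q) ∉ Bad 𝒜 B := by
      rintro ⟨b, hb, c, hc, x, hx, hne⟩
      apply hne
      have h1 := (hG.idl x hx b hb).1
      rw [dl, asc, hG.null _ h1 c hc, hG.null b hb c hc, mul_zero, sub_zero]
    -- minimal k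
    have hex : ∃ k : ℕ, 1 ≤ k ∧ (k • i) ∉ Bad 𝒜 B := by
      refine ⟨q, Nat.one_le_iff_ne_zero.mpr (NeZero.ne q), ?_⟩
      have : q • i = 0 := by simp
      rw [this]; exact h0
    classical
    obtain ⟨hk1, hkg⟩ := Nat.find_spec hex
    set k := Nat.find hex with hkdef
    have hk2 : 2 ≤ k := by
      rcases Nat.lt_or_ge k 2 with h | h
      · exfalso
        have : k = 1 := by omega
        rw [this, one_smul] at hkg
        exact hkg hi
      · exact h
    have hj : ((k - 1) • i) ∈ Bad 𝒜 B := by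
      by_contra hcon
      exact Nat.find_min hex (m := k - 1) (by omega) ⟨by omega, hcon⟩
    have hij : i + (k - 1) • i = k • i := by
      have : k = (k - 1) + 1 := by omega
      conv_rhs => rw [this, succ_nsmul']
    -- descent for a bad index
    have key : ∀ s ∈ Bad 𝒜 B, ∃ m, der (Idl R (B : Set A)) m ≤ Idl R (VS B (𝒜 s)) := by
      intro s hs
      refine hDES R A q 𝒜 B (Idl R (VS B (𝒜 s))) hG (hIDW R A _).1 ?_
      intro A' _ _ _ _ _ π hπ hsur hker hG'
      have hdl : ∀ b c x : A, dl (π b) (π c) (π x) = π (dl b c x) := by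
        intro b c x
        simp only [dl, asc, map_sub, hπ]
      have hsub : Bad (fun i => (𝒜 i).map π) (B.map π) ⊆ Bad 𝒜 B \ {s} := by
        rintro t ⟨_, ⟨b, hb, rfl⟩, _, ⟨c, hc, rfl⟩, _, ⟨x, hx, rfl⟩, hne⟩
        refine ⟨⟨b, hb, c, hc, x, hx, ?_⟩, ?_⟩
        · intro h0
          apply hne
          rw [hdl, h0, map_zero]
        · rintro (rfl : t = s)
          apply hne
          rw [hdl, hker]
          exact (hIDW R A (VS B (𝒜 t))).2.1 ⟨b, hb, c, hc, x, hx, rfl⟩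
      have hlt : (Bad (fun i => (𝒜 i).map π) (B.map π)).ncard < n := by
        rw [← hn]
        refine Set.ncard_lt_ncard ?_ (Set.toFinite _)
        refine ⟨fun t ht => (hsub ht).1, fun h => ?_⟩
        exact (hsub (h hs)).2 rfl
      refine ih _ hlt A' (fun i => (𝒜 i).map π) (B.map π) hG' ?_ rfl
      rintro _ ⟨b1, hb1, rfl⟩ _ ⟨b2, hb2, rfl⟩ _ ⟨b3, hb3, rfl⟩ x'
      obtain ⟨x, rfl⟩ := hsur x'
      obtain ⟨e1, e2⟩ := hV b1 hb1 b2 hb2 b3 hb3 x
      rw [hdl, ← hπ, ← hπ, e1, e2, map_zero]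
      exact ⟨rfl, rfl⟩
    obtain ⟨m1, hm1⟩ := key i hi
    obtain ⟨m2, hm2⟩ := key _ hj
    have hz := hSI1 R hu q A 𝒜 B hG hV i ((k - 1) • i)
      (by rw [hij]; exact not_bad hkg)
    obtain ⟨iso1, iso2, iso3, iso4⟩ := hISO R A
    have hIdl := (hIDW R A (B : Set A)).1
    have l1 : der (Idl R (B : Set A)) (m1 + m2) ≤ Idl R (VS B (𝒜 i)) := by
      have e : m1 + m2 = m2 + m1 := add_comm _ _
      rw [e, ← iso2]
      exact (iso1 _ _ (der_le hIdl m2) m1).trans hm1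
    have l2 : der (Idl R (B : Set A)) (m1 + m2) ≤ Idl R (VS B (𝒜 ((k - 1) • i))) := by
      rw [← iso2]
      exact (iso1 _ _ (der_le hIdl m1) m2).trans hm2
    refine iso3 _ _ (m1 + m2) (le_refl _) (iso4 _ ?_)
    intro x hx y hy
    exact hz x (l1 hx) y (l2 hy)

end ASF
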